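import Pool.Agent.Lib.MP_25e24e_co.Reptile

/-!
# The least `n` for which there is a planar `n`-reptile with a hole is `2`

The example is the Lévy dragon `T`, the attractor of `z ↦ ((1 + i)/2) z` and
`z ↦ ((1 - i)/2) z + (1 + i)/2`.

* `T` has interior points, because countably many copies of it cover the plane (Baire); it is
  then the closure of its interior by self-similarity, and its two pieces have disjoint
  interiors because their areas add up to the area of `T`.
* `T` contains the segment from `i` to `1 + i`, and eight images of this segment under
  compositions of the two maps form the boundary of the convex heptagon with vertices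
  `(3/8, 3/8), (5/8, 3/8), (3/4, 1/2), (3/4, 3/4), (1/2, 1), (1/4, 3/4), (1/4, 1/2)`,
  while the point `(1/2, 5/8)` inside this heptagon does not belong to `T`.
-/

namespace Pool.Agent.Results.MP_25e24e_co.LeastReptileWithHole

open Pool.Agent.Lib.MP_25e24e_co

theorem result :
    IsLeast {n : ℕ | 2 ≤ n ∧ ∃ X : Set (EuclideanSpace ℝ (Fin 2)), IsReptile n X ∧ HasHole X}
      2 := by
  refine ⟨⟨le_rfl, Complex.orthonormalBasisOneI.repr '' T,
    T_isReptile.map Complex.orthonormalBasisOneI.repr,
    T_hasHole.map Complex.orthonormalBasisOneI.repr⟩, fun n hn => hn.1⟩

end Pool.Agent.Results.MP_25e24e_co.LeastReptileWithHole
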